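import Pool.Agent.W477.ER.Stm

/-!
Projective space as a linear space.
-/

set_option autoImplicit false

namespace Pool.Agent.W227.ER

open Finset Pool.Agent.W477.ER
open scoped LinearAlgebra.Projectivization

theorem cardP : CardP := by
  intro K _ _ V _ _ _
  refine ⟨Projectivization.card_of_finrank K V rfl, fun P => ?_⟩
  have h := Submodule.finrank_quotient_add_finrank P.submodule
  rwa [P.finrank_submodule] at h

section

variable {K : Type} [Field K] {V : Type} [AddCommGroup V] [Module K V]

theorem mem_iff_rep {x : ℙ K V} {W : Submodule K V} : x.submodule ≤ W ↔ x.rep ∈ W := by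
  rw [x.submodule_eq, Submodule.span_singleton_le_iff_mem]

theorem eq_of_submodule_le {x y : ℙ K V} (h : x.submodule ≤ y.submodule) : x = y := by
  apply Projectivization.submodule_injective
  exact Submodule.eq_of_le_of_finrank_eq h (by rw [x.finrank_submodule, y.finrank_submodule])

theorem mkQ_rep_eq_zero {P x : ℙ K V} : P.submodule.mkQ x.rep = 0 ↔ x = P := by
  rw [Submodule.mkQ_apply, Submodule.Quotient.mk_eq_zero, ← mem_iff_rep]
  exact ⟨eq_of_submodule_le, fun h => h ▸ le_rfl⟩

theorem over_iff {P x : ℙ K V} {y : ℙ K (V ⧸ P.submodule)} :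
    Over P x y ↔ x ≠ P ∧ P.submodule.mkQ x.rep ∈ y.submodule := by
  constructor
  · rintro ⟨h, rfl⟩
    refine ⟨fun h1 => h (mkQ_rep_eq_zero.2 h1), ?_⟩
    rw [Projectivization.submodule_mk]
    exact Submodule.mem_span_singleton_self _
  · rintro ⟨h1, h2⟩
    have h : P.submodule.mkQ x.rep ≠ 0 := fun h3 => h1 (mkQ_rep_eq_zero.1 h3)
    refine ⟨h, ?_⟩
    apply eq_of_submodule_le
    rw [Projectivization.submodule_mk, Submodule.span_singleton_le_iff_mem]
    exact h2

theorem over_unique {P x : ℙ K V} {y y' : ℙ K (V ⧸ P.submodule)} (h : Over P x y)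
    (h' : Over P x y') : y = y' := by
  obtain ⟨_, e⟩ := h
  obtain ⟨_, e'⟩ := h'
  exact e.symm.trans e'

theorem over_exists {P x : ℙ K V} (h : x ≠ P) : ∃ y, Over P x y :=
  ⟨_, fun h3 => h (mkQ_rep_eq_zero.1 h3), rfl⟩

variable [Finite K] [Finite V]

/-- the points of a subspace -/
noncomputable def ln (W : Submodule K V) : Finset (ℙ K V) :=
  (Set.toFinite {x : ℙ K V | x.submodule ≤ W}).toFinset

omit [Finite K] in
theorem mem_ln {W : Submodule K V} {x : ℙ K V} : x ∈ ln W ↔ x.submodule ≤ W := by
  unfold ln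
  rw [Set.Finite.mem_toFinset]
  rfl

theorem card_ln {W : Submodule K V} (h : Module.finrank K W = 2) :
    (ln W).card = Nat.card K + 1 := by
  rw [← Projectivization.card_of_finrank_two K W h, ← Set.ncard_coe_finset]
  have hinj : Function.Injective (Projectivization.map W.subtype W.injective_subtype) :=
    Projectivization.map_injective _ _
  have h1 : (ln W : Set (ℙ K V)) =
      Set.range (Projectivization.map W.subtype W.injective_subtype) := by
    ext x
    rw [Finset.mem_coe, mem_ln, mem_iff_rep]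
    constructor
    · intro hx
      have hne : (⟨x.rep, hx⟩ : W) ≠ 0 := fun h0 => x.rep_nonzero (congrArg Subtype.val h0)
      refine ⟨Projectivization.mk K ⟨x.rep, hx⟩ hne, ?_⟩
      rw [Projectivization.map_mk]
      exact x.mk_rep
    · rintro ⟨z, rfl⟩
      rw [← mem_iff_rep]
      induction z using Projectivization.ind with
      | h v hv =>
        rw [Projectivization.map_mk, Projectivization.submodule_mk,
          Submodule.span_singleton_le_iff_mem]
        exact v.2
  rw [h1, ← Set.image_univ, Set.ncard_image_of_injective _ hinj, Set.ncard_univ]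

omit [Finite K] [Finite V] in
theorem finrank_sup {x y : ℙ K V} (h : x ≠ y) :
    Module.finrank K (x.submodule ⊔ y.submodule : Submodule K V) = 2 := by
  have h1 := (Projectivization.linearIndependent_pair_iff_ne (K := K) (D := x) (D' := y)).2 h
  have h2 : (x.submodule ⊔ y.submodule : Submodule K V) =
      Submodule.span K (Set.range ![x.rep, y.rep]) := by
    rw [x.submodule_eq, y.submodule_eq, Matrix.range_cons_cons_empty, ← Submodule.span_union]
    rfl
  rw [h2, finrank_span_eq_card h1, Fintype.card_fin]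

omit [Finite K] [Finite V] in
theorem eq_sup {x y : ℙ K V} (h : x ≠ y) {W : Submodule K V} (hW : Module.finrank K W = 2)
    (hx : x.submodule ≤ W) (hy : y.submodule ≤ W) : W = x.submodule ⊔ y.submodule := by
  have : Module.Finite K W := Module.finite_of_finrank_eq_succ hW
  exact (Submodule.eq_of_le_of_finrank_eq (sup_le hx hy) (by rw [finrank_sup h, hW])).symm

variable (K V)

/-- projective space as a linear space -/
noncomputable def proj : LinSp (Nat.card K) (ℙ K V) where
  lines := (Set.toFinite {L : Finset (ℙ K V) | ∃ W : Submodule K V,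
    Module.finrank K W = 2 ∧ ln W = L}).toFinset
  card_line := by
    intro L hL
    rw [Set.Finite.mem_toFinset] at hL
    obtain ⟨W, hW, rfl⟩ := hL
    exact card_ln hW
  exists_line := by
    intro x y hxy
    refine ⟨ln (x.submodule ⊔ y.submodule), ?_, ?_, ?_⟩
    · rw [Set.Finite.mem_toFinset]
      exact ⟨_, finrank_sup hxy, rfl⟩
    · rw [mem_ln]; exact le_sup_left
    · rw [mem_ln]; exact le_sup_right
  unique_line := by
    intro x y hxy L hL L' hL' h1 h2 h3 h4
    rw [Set.Finite.mem_toFinset] at hL hL'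
    obtain ⟨W, hW, rfl⟩ := hL
    obtain ⟨W', hW', rfl⟩ := hL'
    rw [mem_ln] at h1 h2 h3 h4
    rw [eq_sup hxy hW h1 h2, eq_sup hxy hW' h3 h4]

variable {K V}

theorem mem_lines {L : Finset (ℙ K V)} : L ∈ (proj K V).lines ↔
    ∃ W : Submodule K V, Module.finrank K W = 2 ∧ ln W = L := by
  show L ∈ Set.Finite.toFinset _ ↔ _
  rw [Set.Finite.mem_toFinset]
  rfl

/-- the line through `P` given by a point of the quotient -/
noncomputable def lp (P : ℙ K V) (y : ℙ K (V ⧸ P.submodule)) : Finset (ℙ K V) :=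
  ln (y.submodule.comap P.submodule.mkQ)

theorem finrank_comap (P : ℙ K V) (y : ℙ K (V ⧸ P.submodule)) :
    Module.finrank K (y.submodule.comap P.submodule.mkQ) = 2 := by
  have h1 : ∃ x, Over P x y := by
    obtain ⟨v, hv⟩ := P.submodule.mkQ_surjective y.rep
    have hv0 : v ≠ 0 := by
      rintro rfl
      rw [map_zero] at hv
      exact y.rep_nonzero hv.symm
    refine ⟨Projectivization.mk K v hv0, ?_⟩
    obtain ⟨a, ha⟩ := Projectivization.exists_smul_eq_mk_rep K v hv0
    rw [over_iff]
    have h2 : P.submodule.mkQ (Projectivization.mk K v hv0).rep = a • y.rep := by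
      rw [← ha, ← hv]
      exact map_smul _ (a : K) v
    refine ⟨fun h3 => ?_, ?_⟩
    · rw [← mkQ_rep_eq_zero, h2] at h3
      exact y.rep_nonzero ((smul_eq_zero_iff_eq a).1 h3)
    · rw [h2]
      exact y.submodule.smul_mem (a : K) (mem_iff_rep.1 le_rfl)
  obtain ⟨x, hx⟩ := h1
  rw [over_iff] at hx
  have h3 : (y.submodule.comap P.submodule.mkQ) = x.submodule ⊔ P.submodule := by
    apply le_antisymm
    · intro v hv
      rw [Submodule.mem_comap] at hv
      have h4 : y.submodule = K ∙ (P.submodule.mkQ x.rep) := by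
        symm
        apply Submodule.eq_of_le_of_finrank_eq
        · rw [Submodule.span_singleton_le_iff_mem]; exact hx.2
        · rw [y.finrank_submodule, finrank_span_singleton fun h => hx.1 (mkQ_rep_eq_zero.1 h)]
      rw [h4, Submodule.mem_span_singleton] at hv
      obtain ⟨c, hc⟩ := hv
      have h5 : v - c • x.rep ∈ P.submodule := by
        rw [← Submodule.Quotient.mk_eq_zero, ← Submodule.mkQ_apply, map_sub, map_smul, hc, sub_self]
      rw [Submodule.mem_sup]
      refine ⟨c • x.rep, x.submodule.smul_mem c (mem_iff_rep.1 le_rfl), v - c • x.rep, h5, ?_⟩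
      abel
    · refine sup_le ?_ ?_
      · rw [mem_iff_rep, Submodule.mem_comap]; exact hx.2
      · intro v hv
        rw [Submodule.mem_comap, Submodule.mkQ_apply, (Submodule.Quotient.mk_eq_zero _).2 hv]
        exact y.submodule.zero_mem
  rw [h3, finrank_sup hx.1]

theorem mem_lp {P x : ℙ K V} {y : ℙ K (V ⧸ P.submodule)} (hx : x ≠ P) :
    x ∈ lp P y ↔ Over P x y := by
  unfold lp
  rw [mem_ln, mem_iff_rep, Submodule.mem_comap, over_iff]
  exact ⟨fun h => ⟨hx, h⟩, fun h => h.2⟩

theorem self_mem_lp {P : ℙ K V} {y : ℙ K (V ⧸ P.submodule)} : P ∈ lp P y := by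
  unfold lp
  rw [mem_ln, mem_iff_rep, Submodule.mem_comap, mkQ_rep_eq_zero.2 rfl]
  exact y.submodule.zero_mem

theorem lp_mem_lines {P : ℙ K V} {y : ℙ K (V ⧸ P.submodule)} : lp P y ∈ (proj K V).lines := by
  rw [mem_lines]
  exact ⟨_, finrank_comap P y, rfl⟩

open Classical in
theorem lp_filter {P : ℙ K V} {y : ℙ K (V ⧸ P.submodule)} (X : Finset (ℙ K V)) :
    (lp P y).filter (fun x => x ∈ X ∧ x ≠ P) = X.filter (fun x => Over P x y) := by
  ext x
  rw [Finset.mem_filter, Finset.mem_filter]
  constructor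
  · rintro ⟨h1, h2, h3⟩
    exact ⟨h2, (mem_lp h3).1 h1⟩
  · rintro ⟨h1, h2⟩
    have h3 : x ≠ P := (over_iff.1 h2).1
    exact ⟨(mem_lp h3).2 h2, h1, h3⟩

theorem geoLin' (X : Finset (ℙ K V)) (P : ℙ K V) (i : ℕ) :
    (proj K V).nn X P i = (lay P X i).card := by
  classical
  have hinj : Set.InjOn (lp P) (lay P X i : Set (ℙ K (V ⧸ P.submodule))) := by
    intro y hy y' hy' h
    rw [Finset.mem_coe, mem_lay] at hy
    obtain ⟨x, hx⟩ := Finset.card_pos.1 (lt_of_le_of_lt (Nat.zero_le _) hy)
    rw [Finset.mem_filter] at hx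
    have h3 : x ≠ P := (over_iff.1 hx.2).1
    have h4 : x ∈ lp P y := (mem_lp h3).2 hx.2
    rw [h] at h4
    exact over_unique hx.2 ((mem_lp h3).1 h4)
  rw [← Finset.card_image_of_injOn hinj]
  unfold LinSp.nn
  congr 1
  ext L
  rw [Finset.mem_filter, Finset.mem_image]
  constructor
  · rintro ⟨hL, hP, hi⟩
    obtain ⟨x, hx⟩ := Finset.card_pos.1 (lt_of_le_of_lt (Nat.zero_le _) hi)
    rw [Finset.mem_filter] at hx
    obtain ⟨hxL, hxX, hxP⟩ := hx
    obtain ⟨y, hy⟩ := over_exists hxP
    have h1 : lp P y = L := (proj K V).unique_line x P hxP _ lp_mem_lines _ hL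
      ((mem_lp hxP).2 hy) self_mem_lp hxL hP
    refine ⟨y, ?_, h1⟩
    rw [mem_lay, ← lp_filter, h1]
    convert hi
  · rintro ⟨y, hy, rfl⟩
    refine ⟨lp_mem_lines, self_mem_lp, ?_⟩
    rw [mem_lay, ← lp_filter] at hy
    convert hy

end

theorem geoLin : GeoLin := by
  intro K _ _ V _ _ _
  exact ⟨proj K V, geoLin'⟩

end Pool.Agent.W227.ER
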